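import Pool.Agent.W_7d29a1_SL.NotConf17

/-!
MP_7d29a1_pr, THEOREM (T) (proofs row 630): tightness of the wandering. Part a: independent events, averages with independent
weights, integer quantiles.
-/

namespace Pool.Agent.W_7d29a1_59T

open MeasureTheory ProbabilityTheory Filter Topology Pool.Agent.W_7d29a1_F
open Pool.Agent.W_7d29a1_SL (real_eq_int int_io choice_le)

variable {μ : Measure ℝ} [IsProbabilityMeasure μ]

/-- None of `M` independent events of probability at least `p` happens. -/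
theorem prob_none {M : ℕ} {P : ℕ → Env → Prop} {A : ℕ → Set Pt} {p : ℝ}
    (hm : ∀ i < M, MeasurableSet {η | P i η})
    (hd : ∀ i < M, ∀ η η' : Env, (∀ x ∈ A i, η x = η' x) → (P i η ↔ P i η'))
    (hA : ∀ i < M, ∀ j < M, i ≠ j → Disjoint (A i) (A j))
    (hp : ∀ i < M, p ≤ (law μ).real {η | P i η}) :
    (law μ).real {η | ∀ i < M, ¬ P i η} ≤ (1 - p) ^ M := by
  have h := indep_events (μ := μ) (Finset.range M) (fun i => {η | P i η}ᶜ) A
    (fun i hi => (hm i (Finset.mem_range.1 hi)).compl)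
    (fun i hi η η' hh => by
      have h1 := hd i (Finset.mem_range.1 hi) η η' hh
      exact not_congr h1)
    (fun i hi j hj hij => hA i (Finset.mem_range.1 hi) j (Finset.mem_range.1 hj) hij)
  have e : {η : Env | ∀ i < M, ¬ P i η} = {η | ∀ i ∈ Finset.range M, η ∈ {η | P i η}ᶜ} := by
    ext η
    simp only [Set.mem_ofPred_eq, Finset.mem_range, Set.mem_compl_iff]
  rw [e, h]
  have h1 : ∀ i ∈ Finset.range M, (law μ).real ({η | P i η}ᶜ) ≤ 1 - p := by
    intro i hi
    rw [probReal_compl_eq_one_sub (hm i (Finset.mem_range.1 hi))]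
    have := hp i (Finset.mem_range.1 hi)
    linarith
  calc ∏ i ∈ Finset.range M, (law μ).real ({η | P i η}ᶜ) ≤ ∏ _i ∈ Finset.range M, (1 - p) :=
        Finset.prod_le_prod (fun i _ => measureReal_nonneg) h1
    _ = (1 - p) ^ M := by rw [Finset.prod_const, Finset.card_range]

/-- Weights `ω` and bad events which are independent of the weights: the good ones keep half of the weight. -/
theorem avg_half {K : Finset ℤ} {ω : ℤ → Env → ℝ} {G : ℤ → Env → Prop} {A B : Set Pt} {d : ℝ}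
    (hω0 : ∀ b ∈ K, ∀ η, 0 ≤ ω b η) (hωm : ∀ b ∈ K, Measurable (ω b)) (hωd : ∀ b ∈ K, DependsOn (ω b) A)
    (hGm : ∀ b ∈ K, MeasurableSet {η | G b η})
    (hGd : ∀ b ∈ K, ∀ η η' : Env, (∀ x ∈ B, η x = η' x) → (G b η ↔ G b η')) (hAB : Disjoint A B)
    (hd : ∀ b ∈ K, (law μ).real {η | ¬ G b η} ≤ d) (hd0 : 0 ≤ d) :
    (law μ).real {η | ∑ b ∈ K, ω b η * io (G b η) < (∑ b ∈ K, ω b η) / 2} ≤ 2 * d := by
  obtain ⟨Ω, hΩ⟩ : ∃ Ω : Env → ℝ, Ω = fun η => ∑ b ∈ K, ω b η := ⟨_, rfl⟩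
  have hΩ0 : ∀ η, 0 ≤ Ω η := fun η => by
    rw [hΩ]
    exact Finset.sum_nonneg fun b hb => hω0 b hb η
  have hΩm : Measurable Ω := by
    rw [hΩ]
    exact Finset.measurable_sum _ hωm
  have hNm : ∀ b ∈ K, MeasurableSet {η | ¬ G b η} := fun b hb => (hGm b hb).compl
  obtain ⟨f, hf⟩ : ∃ f : ℤ → Env → ℝ, f = fun b η => ω b η / Ω η * io (¬ G b η) := ⟨_, rfl⟩
  have hq : ∀ b ∈ K, ∀ η, 0 ≤ ω b η / Ω η ∧ ω b η / Ω η ≤ 1 := by
    intro b hb η
    refine ⟨div_nonneg (hω0 b hb η) (hΩ0 η), ?_⟩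
    refine div_le_one_of_le₀ ?_ (hΩ0 η)
    rw [hΩ]
    exact Finset.single_le_sum (f := fun b => ω b η) (fun b hb => hω0 b hb η) hb
  have hqm : ∀ b ∈ K, Measurable fun η => ω b η / Ω η := fun b hb => (hωm b hb).div hΩm
  have hqi : ∀ b ∈ K, Integrable (fun η => ω b η / Ω η) (law μ) := fun b hb =>
    Integrable.mono' (integrable_const (1 : ℝ)) (hqm b hb).aestronglyMeasurable (Eventually.of_forall fun η => by
      rw [Real.norm_eq_abs, abs_of_nonneg (hq b hb η).1]
      exact (hq b hb η).2)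
  have hf0 : ∀ b ∈ K, ∀ η, 0 ≤ f b η := fun b hb η => by
    rw [hf]
    exact mul_nonneg (hq b hb η).1 (io_nonneg _)
  have hfi : ∀ b ∈ K, Integrable (f b) (law μ) := fun b hb => by
    refine (hqi b hb).mono ?_ (Eventually.of_forall fun η => ?_)
    · rw [hf]
      exact ((hqm b hb).mul (measurable_io (hNm b hb))).aestronglyMeasurable
    · rw [Real.norm_eq_abs, Real.norm_eq_abs, abs_of_nonneg (hf0 b hb η), abs_of_nonneg (hq b hb η).1, hf]
      exact mul_le_of_le_one_right (hq b hb η).1 (io_le_one _)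
  have hfint : ∀ b ∈ K, ∫ η, f b η ∂(law μ) ≤ d * ∫ η, ω b η / Ω η ∂(law μ) := by
    intro b hb
    have h1 : ∫ η, f b η ∂(law μ) = (∫ η, ω b η / Ω η ∂(law μ)) * ∫ η, io (¬ G b η) ∂(law μ) := by
      rw [hf]
      refine integral_indep (hqm b hb) (measurable_io (hNm b hb)) ?_ ?_ hAB
      · intro η η' hh
        show ω b η / Ω η = ω b η' / Ω η'
        have h2 : ω b η = ω b η' := hωd b hb hh
        have h3 : Ω η = Ω η' := by
          rw [hΩ]
          exact Finset.sum_congr rfl fun j hj => hωd j hj hh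
        rw [h2, h3]
      · intro η η' hh
        show io (¬ G b η) = io (¬ G b η')
        rw [propext (hGd b hb η η' hh)]
    rw [h1, mul_comm, ← real_eq_int (hNm b hb)]
    exact mul_le_mul_of_nonneg_right (hd b hb) (integral_nonneg fun η => (hq b hb η).1)
  have hsum : ∫ η, ∑ b ∈ K, f b η ∂(law μ) ≤ d := by
    rw [integral_finsetSum _ hfi]
    refine (Finset.sum_le_sum hfint).trans ?_
    rw [← Finset.mul_sum, ← integral_finsetSum _ hqi]
    have h1 : ∫ η, ∑ b ∈ K, ω b η / Ω η ∂(law μ) ≤ ∫ _η, (1 : ℝ) ∂(law μ) := by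
      refine integral_mono_of_nonneg (Eventually.of_forall fun η => Finset.sum_nonneg fun b hb => (hq b hb η).1)
        (integrable_const _) (Eventually.of_forall fun η => ?_)
      show ∑ b ∈ K, ω b η / Ω η ≤ 1
      rw [← Finset.sum_div]
      refine div_le_one_of_le₀ ?_ (hΩ0 η)
      rw [hΩ]
    rw [integral_const, probReal_univ, one_smul] at h1
    nlinarith
  have hmk := mul_meas_ge_le_integral_of_nonneg (μ := law μ) (f := fun η => ∑ b ∈ K, f b η)
    (Eventually.of_forall fun η => Finset.sum_nonneg fun b hb => hf0 b hb η)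
    (integrable_finsetSum _ hfi) (1 / 2)
  have hsub : (law μ).real {η | ∑ b ∈ K, ω b η * io (G b η) < (∑ b ∈ K, ω b η) / 2} ≤
      (law μ).real {η | 1 / 2 ≤ ∑ b ∈ K, f b η} := by
    refine measureReal_mono (fun η hη => ?_) (measure_ne_top _ _)
    have h1 : ∑ b ∈ K, ω b η * io (G b η) < Ω η / 2 := by
      rw [hΩ]
      exact hη
    have h2 : 0 ≤ ∑ b ∈ K, ω b η * io (G b η) :=
      Finset.sum_nonneg fun b hb => mul_nonneg (hω0 b hb η) (io_nonneg _)
    have h3 : 0 < Ω η := by linarith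
    have h4 : Ω η = ∑ b ∈ K, ω b η * io (G b η) + ∑ b ∈ K, ω b η * io (¬ G b η) := by
      rw [hΩ, ← Finset.sum_add_distrib]
      refine Finset.sum_congr rfl fun b _ => ?_
      by_cases hg : G b η
      · rw [io_of hg, io_not fun h => h hg]
        ring
      · rw [io_not hg, io_of hg]
        ring
    show 1 / 2 ≤ ∑ b ∈ K, f b η
    have h5 : ∑ b ∈ K, f b η = (∑ b ∈ K, ω b η * io (¬ G b η)) / Ω η := by
      rw [Finset.sum_div, hf]
      refine Finset.sum_congr rfl fun b _ => ?_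
      ring
    rw [h5, le_div_iff₀ h3]
    linarith
  linarith

/-- An integer quantile. -/
theorem quant {X : Env → ℝ} (hX : Measurable X) {κ : ℝ} (h0 : 0 < κ) (h1 : κ < 1) :
    ∃ x : ℤ, κ ≤ (law μ).real {η | (x : ℝ) ≤ X η} ∧ (law μ).real {η | (x : ℝ) + 1 ≤ X η} < κ := by
  obtain ⟨ν, hν⟩ : ∃ ν : Measure ℝ, ν = (law μ).map X := ⟨_, rfl⟩
  have hνp : IsProbabilityMeasure ν := by
    rw [hν]
    exact Measure.isProbabilityMeasure_map hX.aemeasurable
  have hr : ∀ a : ℝ, (law μ).real {η | a ≤ X η} = ν.real (Set.Ici a) := by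
    intro a
    rw [hν, map_measureReal_apply hX measurableSet_Ici]
    rfl
  -- large values
  have hup : Tendsto (fun k : ℕ => ν.real (Set.Ici (k : ℝ))) atTop (𝓝 0) := by
    have hs : Antitone fun k : ℕ => Set.Ici (k : ℝ) := fun i j hij => Set.Ici_subset_Ici.2 (Nat.cast_le.2 hij)
    have ht := tendsto_measure_iInter_atTop (μ := ν) (s := fun k : ℕ => Set.Ici (k : ℝ))
      (fun _ => measurableSet_Ici.nullMeasurableSet) hs ⟨0, measure_ne_top _ _⟩
    have he : ⋂ k : ℕ, Set.Ici (k : ℝ) = ∅ := by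
      ext x
      simp only [Set.mem_iInter, Set.mem_Ici, Set.mem_empty_iff_false, iff_false, not_forall, not_le]
      obtain ⟨k, hk⟩ := exists_nat_gt x
      exact ⟨k, hk⟩
    rw [he, measure_empty] at ht
    have := (ENNReal.tendsto_toReal (by simp : (0 : ENNReal) ≠ ⊤)).comp ht
    rw [ENNReal.toReal_zero] at this
    exact this
  have hdn : Tendsto (fun k : ℕ => ν.real (Set.Ici (-(k : ℝ)))) atTop (𝓝 1) := by
    have hs : Monotone fun k : ℕ => Set.Ici (-(k : ℝ)) := fun i j hij =>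
      Set.Ici_subset_Ici.2 (neg_le_neg (Nat.cast_le.2 hij))
    have ht := tendsto_measure_iUnion_atTop (μ := ν) hs
    have he : ⋃ k : ℕ, Set.Ici (-(k : ℝ)) = Set.univ := by
      ext x
      simp only [Set.mem_iUnion, Set.mem_Ici, Set.mem_univ, iff_true]
      obtain ⟨k, hk⟩ := exists_nat_gt (-x)
      exact ⟨k, by linarith⟩
    rw [he, measure_univ] at ht
    have := (ENNReal.tendsto_toReal (by simp : (1 : ENNReal) ≠ ⊤)).comp ht
    rw [ENNReal.toReal_one] at this
    exact this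
  obtain ⟨K1, hK1⟩ := (hup.eventually (gt_mem_nhds h0)).exists
  obtain ⟨K2, hK2⟩ := (hdn.eventually (lt_mem_nhds h1)).exists
  obtain ⟨x, hx, hmax⟩ := Int.exists_greatest_of_bdd (P := fun k : ℤ => κ ≤ ν.real (Set.Ici (k : ℝ)))
    ⟨K1, fun z hz => by
      by_contra hlt
      push Not at hlt
      have h2 : ((K1 : ℕ) : ℝ) ≤ (z : ℝ) := by exact_mod_cast hlt.le
      have h3 : ν.real (Set.Ici (z : ℝ)) ≤ ν.real (Set.Ici (K1 : ℝ)) :=
        measureReal_mono (Set.Ici_subset_Ici.2 h2) (measure_ne_top _ _)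
      linarith⟩
    ⟨-(K2 : ℤ), by
      push_cast
      exact hK2.le⟩
  refine ⟨x, by rw [hr]; exact hx, ?_⟩
  rw [hr]
  by_contra hcon
  push Not at hcon
  have h2 := hmax (x + 1) (by push_cast; exact hcon)
  omega

end Pool.Agent.W_7d29a1_59T
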