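import Pool.Agent.W_7d29a1_59T.Ta

/-!
MP_7d29a1_pr, THEOREM (T) (proofs row 630): tightness of the wandering. Part b: the weight of a vertical strip between two rows.
-/

namespace Pool.Agent.W_7d29a1_59T

open MeasureTheory ProbabilityTheory Filter Topology Pool.Agent.W_7d29a1_F
open Pool.Agent.W_7d29a1_SL

noncomputable section

variable {μ : Measure ℝ}

/-- The vertical strip of half width `r`. -/
def Rg (r : ℝ) : Set Pt := {p | |2 * (p.2 : ℝ) - (p.1 : ℝ)| ≤ 2 * r}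

/-- The sites of the row `t` in the strip. -/
def Win (r : ℝ) (t : ℕ) : Finset ℤ :=
  (Finset.Icc ((t : ℤ) / 2 - ⌈r⌉ - 1) ((t : ℤ) / 2 + ⌈r⌉ + 1)).filter fun b => |2 * (b : ℝ) - t| ≤ 2 * r

theorem mem_Win {r : ℝ} {t : ℕ} {b : ℤ} : b ∈ Win r t ↔ |2 * (b : ℝ) - t| ≤ 2 * r := by
  unfold Win
  rw [Finset.mem_filter, Finset.mem_Icc, and_iff_right_iff_imp]
  intro h
  have h1 := abs_le.1 h
  have h2 := Int.le_ceil r
  obtain ⟨T, hT⟩ : ∃ T : ℤ, T = (t : ℤ) / 2 := ⟨_, rfl⟩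
  have h3 : 2 * T ≤ (t : ℤ) ∧ (t : ℤ) ≤ 2 * T + 1 := by omega
  have h4 : 2 * (T : ℝ) ≤ t := by exact_mod_cast h3.1
  have h5 : (t : ℝ) ≤ 2 * (T : ℝ) + 1 := by exact_mod_cast h3.2
  rw [← hT]
  constructor
  · by_contra hcon
    push Not at hcon
    have h6 : (b : ℝ) + 1 ≤ ((T - ⌈r⌉ - 1 : ℤ) : ℝ) := by exact_mod_cast hcon
    push_cast at h6
    linarith [h1.1]
  · by_contra hcon
    push Not at hcon
    have h6 : ((T + ⌈r⌉ + 1 : ℤ) : ℝ) + 1 ≤ (b : ℝ) := by exact_mod_cast hcon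
    push_cast at h6
    linarith [h1.2]

theorem mem_Rg {r : ℝ} {t : ℕ} {b : ℤ} : (((t : ℤ), b) : Pt) ∈ Rg r ↔ b ∈ Win r t := by
  rw [mem_Win]
  show |2 * (((((t : ℤ), b) : Pt).2 : ℤ) : ℝ) - (((((t : ℤ), b) : Pt).1 : ℤ) : ℝ)| ≤ 2 * r ↔ _
  simp only [Int.cast_natCast]

theorem card_Win {r : ℝ} (hr : 0 ≤ r) (t : ℕ) : ((Win r t).card : ℝ) ≤ 2 * r + 5 := by
  have h1 : (Win r t).card ≤ (Finset.Icc ((t : ℤ) / 2 - ⌈r⌉ - 1) ((t : ℤ) / 2 + ⌈r⌉ + 1)).card :=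
    Finset.card_filter_le _ _
  rw [Int.card_Icc] at h1
  have h2 : 0 ≤ ⌈r⌉ := Int.ceil_nonneg hr
  have h3 : ((((t : ℤ) / 2 + ⌈r⌉ + 1 + 1 - ((t : ℤ) / 2 - ⌈r⌉ - 1)).toNat : ℕ) : ℤ) = 2 * ⌈r⌉ + 3 := by
    rw [Int.toNat_of_nonneg (by omega)]
    ring
  have h4 : ((Win r t).card : ℤ) ≤ 2 * ⌈r⌉ + 3 := by
    rw [← h3]
    exact_mod_cast h1
  have h5 : ((Win r t).card : ℝ) ≤ 2 * (⌈r⌉ : ℝ) + 3 := by exact_mod_cast h4
  have h6 := Int.ceil_lt_add_one r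
  linarith

/-- The weight of the paths in the strip (shifted by `x`) from the row `t` to the row `t + ℓ`. -/
def S (μ : Measure ℝ) (r : ℝ) (x : ℤ) (t ℓ : ℕ) (η : Env) : ℝ :=
  ∑ b ∈ Win r t, ZR μ 0 (Rx (Rg r) x) η ((t : ℤ), x + b) ℓ

theorem S_nonneg (r : ℝ) (x : ℤ) (t ℓ : ℕ) (η : Env) : 0 ≤ S μ r x t ℓ η :=
  Finset.sum_nonneg fun _ _ => ZR_nonneg _ _ _ _

theorem measurable_S (r : ℝ) (x : ℤ) (t ℓ : ℕ) : Measurable (S μ r x t ℓ) :=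
  Finset.measurable_sum _ fun _ _ => measurable_ZR _ _ _

theorem S_dep (r : ℝ) (x : ℤ) (t ℓ : ℕ) :
    DependsOn (S μ r x t ℓ) (Rx (Rg r) x ∩ rows t ((t : ℤ) + ℓ)) := by
  intro η η' h
  unfold S
  exact Finset.sum_congr rfl fun b _ => ZR_dep (μ := μ) (s := 0) (Rx (Rg r) x) ((t : ℤ), x + b) ℓ h

theorem mem_Rx {r : ℝ} {x y : ℤ} {t : ℕ} : (((t : ℤ), x + y) : Pt) ∈ Rx (Rg r) x ↔ y ∈ Win r t := by
  rw [← mem_Rg]
  show (((t : ℤ), x + y - x) : Pt) ∈ Rg r ↔ _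
  rw [add_sub_cancel_left]

theorem ZR_le_S {r : ℝ} {x b : ℤ} {t : ℕ} (ℓ : ℕ) (η : Env) (hb : b ∈ Win r t) :
    ZR μ 0 (Rx (Rg r) x) η ((t : ℤ), x + b) ℓ ≤ S μ r x t ℓ η :=
  Finset.single_le_sum (f := fun b => ZR μ 0 (Rx (Rg r) x) η ((t : ℤ), x + b) ℓ)
    (fun _ _ => ZR_nonneg _ _ _ _) hb

/-- Cutting at a row. -/
theorem S_add (r : ℝ) (x : ℤ) (t : ℕ) {l₁ : ℕ} (h1 : 1 ≤ l₁) (l₂ : ℕ) (η : Env) :
    S μ r x t (l₁ + l₂) η ≤ S μ r x t l₁ η * S μ r x (t + l₁) l₂ η := by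
  have key : ∀ b ∈ Win r t, ZR μ 0 (Rx (Rg r) x) η ((t : ℤ), x + b) (l₁ + l₂) ≤
      ZR μ 0 (Rx (Rg r) x) η ((t : ℤ), x + b) l₁ * S μ r x (t + l₁) l₂ η := by
    intro b _
    rw [ZR_add]
    have e1 : ZR μ 0 (Rx (Rg r) x) η ((t : ℤ), x + b) l₁ =
        ∑ k ∈ Finset.Icc (0 : ℤ) l₁, WR μ 0 (Rx (Rg r) x) η ((t : ℤ), x + b) l₁ k := rfl
    rw [e1, Finset.sum_mul]
    refine Finset.sum_le_sum fun k _ => ?_
    have e2 : ((((t : ℤ), x + b) : Pt).1 + (l₁ : ℤ), (((t : ℤ), x + b) : Pt).2 + k) =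
        ((((t + l₁ : ℕ) : ℤ), x + (b + k)) : Pt) := by
      refine Prod.ext ?_ ?_
      · show (t : ℤ) + l₁ = ((t + l₁ : ℕ) : ℤ)
        push_cast
        ring
      · show x + b + k = x + (b + k)
        ring
    by_cases hk : (b + k) ∈ Win r (t + l₁)
    · rw [e2]
      exact mul_le_mul_of_nonneg_left (ZR_le_S l₂ η hk) (WR_nonneg _ _ _ _ _)
    · rw [WR_end (Rx (Rg r) x) η ((t : ℤ), x + b) h1 (k := k) (by
        rw [e2, mem_Rx]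
        exact hk), zero_mul, zero_mul]
  calc S μ r x t (l₁ + l₂) η ≤ ∑ b ∈ Win r t, ZR μ 0 (Rx (Rg r) x) η ((t : ℤ), x + b) l₁ * S μ r x (t + l₁) l₂ η :=
        Finset.sum_le_sum key
    _ = S μ r x t l₁ η * S μ r x (t + l₁) l₂ η := by
        rw [← Finset.sum_mul]
        rfl

/-- From the origin to a row, then the strip. -/
theorem ZR_le_V_S (r : ℝ) {m : ℕ} (hm : 1 ≤ m) (l : ℕ) (η : Env) :
    ZR μ 0 (Rg r) η 0 (m + l) ≤ Real.exp (V μ 0 η 0 m) * S μ r 0 m l η := by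
  have hR : Rx (Rg r) 0 = Rg r := by
    ext p
    show ((p.1, p.2 - 0) : Pt) ∈ Rg r ↔ p ∈ Rg r
    rw [sub_zero]
  rw [ZR_add, exp_V]
  unfold WS
  rw [Finset.sum_mul]
  refine Finset.sum_le_sum fun k _ => ?_
  have e2 : (((0 : Pt).1 + (m : ℤ), (0 : Pt).2 + k) : Pt) = (((m : ℤ), 0 + k) : Pt) := by
    simp
  by_cases hk : k ∈ Win r m
  · rw [e2]
    refine mul_le_mul (WR_le_W _ _ _ _ _) ?_ (ZR_nonneg _ _ _ _) (W_nonneg _ _ _ _)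
    have h := ZR_le_S (μ := μ) (r := r) (x := 0) l η hk
    rw [hR] at h
    exact h
  · rw [WR_end (Rg r) η 0 hm (k := k) (by
      rw [e2, zero_add, mem_Rg]
      exact hk), zero_mul]
    exact mul_nonneg (W_nonneg _ _ _ _) (S_nonneg _ _ _ _ _)

/-- The restricted partition function of a shifted environment. -/
theorem ZR_shift (R R' : Set Pt) (η : Env) (a c : Pt) (n : ℕ) (h : R' = {p | p + c ∈ R}) :
    ZR μ 0 R' (sh c η) a n = ZR μ 0 R η (a + c) n := by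
  unfold ZR
  refine Finset.sum_congr rfl fun y _ => ?_
  rw [h]
  exact WR_sh (μ := μ) (s := 0) R η a c n y

/-- Stationarity. -/
theorem S_sh (r : ℝ) (x : ℤ) (t k ℓ : ℕ) (η : Env) :
    S μ r 0 t ℓ (sh (((2 * k : ℕ) : ℤ), (k : ℤ) + x) η) = S μ r x (t + 2 * k) ℓ η := by
  classical
  unfold S
  have hW : Win r (t + 2 * k) = (Win r t).image fun b : ℤ => b + (k : ℤ) := by
    ext b
    rw [mem_Win, Finset.mem_image]
    constructor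
    · intro h
      refine ⟨b - k, ?_, by ring⟩
      rw [mem_Win]
      push_cast at h ⊢
      have e : 2 * ((b : ℝ) - k) - t = 2 * b - (t + 2 * k) := by ring
      rw [e]
      exact h
    · rintro ⟨b', hb', rfl⟩
      rw [mem_Win] at hb'
      push_cast
      have e : 2 * ((b' : ℝ) + k) - (t + 2 * k) = 2 * b' - t := by ring
      rw [e]
      exact hb'
  rw [hW, Finset.sum_image (fun a _ b _ h => by simpa using h)]
  refine Finset.sum_congr rfl fun b _ => ?_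
  rw [ZR_shift (μ := μ) (Rx (Rg r) x) (Rx (Rg r) 0) η ((t : ℤ), 0 + b) (((2 * k : ℕ) : ℤ), (k : ℤ) + x) ℓ (by
    ext p
    show |2 * ((p.2 - 0 : ℤ) : ℝ) - (p.1 : ℝ)| ≤ 2 * r ↔
      |2 * ((p.2 + ((k : ℤ) + x) - x : ℤ) : ℝ) - ((p.1 + ((2 * k : ℕ) : ℤ) : ℤ) : ℝ)| ≤ 2 * r
    push_cast
    have e : 2 * ((p.2 : ℝ) + ((k : ℝ) + x) - x) - ((p.1 : ℝ) + 2 * k) = 2 * ((p.2 : ℝ) - 0) - p.1 := by ring
    rw [e])]
  have e3 : (((t : ℤ), 0 + b) : Pt) + ((((2 * k : ℕ) : ℤ), (k : ℤ) + x) : Pt) =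
      ((((t + 2 * k : ℕ) : ℤ), x + (b + k)) : Pt) := by
    refine Prod.ext ?_ ?_
    · show (t : ℤ) + ((2 * k : ℕ) : ℤ) = ((t + 2 * k : ℕ) : ℤ)
      push_cast
      ring
    · show 0 + b + ((k : ℤ) + x) = x + (b + k)
      ring
  rw [e3]

theorem S_law [IsProbabilityMeasure μ] (r : ℝ) (x : ℤ) (t k ℓ : ℕ) (v : ℝ) :
    (law μ).real {η | v ≤ S μ r x (t + 2 * k) ℓ η} = (law μ).real {η | v ≤ S μ r 0 t ℓ η} := by
  have hms : MeasurableSet {η : Env | v ≤ S μ r 0 t ℓ η} := measurableSet_le measurable_const (measurable_S r 0 t ℓ)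
  rw [← real_sh (μ := μ) ((((2 * k : ℕ) : ℤ), (k : ℤ) + x) : Pt) hms]
  congr 1
  ext η
  show v ≤ S μ r x (t + 2 * k) ℓ η ↔ v ≤ S μ r 0 t ℓ (sh (((2 * k : ℕ) : ℤ), (k : ℤ) + x) η)
  rw [S_sh]

/-- There is a path in the strip. -/
theorem ZR_pos {r : ℝ} (hr : 1 / 2 ≤ r) (η : Env) (ℓ : ℕ) : ∀ (t b : ℤ), |2 * (b : ℝ) - t| ≤ 2 * r →
    0 < ZR μ 0 (Rg r) η (t, b) ℓ := by
  induction ℓ with
  | zero =>
    intro t b _
    unfold ZR WR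
    simp [Zr]
  | succ n ih =>
    intro t b hb
    obtain ⟨k, hk, hk2⟩ : ∃ k : ℤ, (k = 0 ∨ k = 1) ∧ |2 * ((b + k : ℤ) : ℝ) - ((t + 1 : ℤ) : ℝ)| ≤ 2 * r := by
      have h1 := abs_le.1 hb
      rcases le_or_gt (1 : ℤ) (2 * b - t) with h | h
      · refine ⟨0, Or.inl rfl, ?_⟩
        have h2 : (1 : ℝ) ≤ 2 * (b : ℝ) - t := by exact_mod_cast h
        push_cast
        rw [abs_le]
        constructor <;> linarith [h1.2]
      · refine ⟨1, Or.inr rfl, ?_⟩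
        have h2 : 2 * (b : ℝ) - t ≤ 0 := by
          have : 2 * b - t ≤ 0 := by omega
          exact_mod_cast this
        push_cast
        rw [abs_le]
        constructor <;> linarith [h1.1]
    have h3 : ZR μ 0 (Rg r) η (t, b) (1 + n) = ∑ j ∈ Finset.Icc (0 : ℤ) ((1 : ℕ) : ℤ),
      WR μ 0 (Rg r) η (t, b) 1 j * ZR μ 0 (Rg r) η ((t, b).1 + ((1 : ℕ) : ℤ), (t, b).2 + j) n := ZR_add _ _ _ _ _
    rw [add_comm n 1, h3]
    have hkm : k ∈ Finset.Icc (0 : ℤ) ((1 : ℕ) : ℤ) := by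
      rw [Finset.mem_Icc]
      push_cast
      omega
    refine lt_of_lt_of_le ?_ (Finset.single_le_sum
      (f := fun j => WR μ 0 (Rg r) η (t, b) 1 j * ZR μ 0 (Rg r) η ((t, b).1 + ((1 : ℕ) : ℤ), (t, b).2 + j) n)
      (fun j _ => mul_nonneg (WR_nonneg _ _ _ _ _) (ZR_nonneg _ _ _ _)) hkm)
    refine mul_pos ?_ ?_
    · unfold WR
      refine mul_pos (Real.exp_pos _) ?_
      show 0 < (Rg r).indicator (fun p => Real.exp (η p)) (t + ((0 : ℕ) + 1), b + k) *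
        (Zr (Rg r) η (t, b) 0 k + Zr (Rg r) η (t, b) 0 (k - 1))
      have hin : ((t + (((0 : ℕ) : ℤ) + 1), b + k) : Pt) ∈ Rg r := by
        show |2 * ((b + k : ℤ) : ℝ) - ((t + (((0 : ℕ) : ℤ) + 1) : ℤ) : ℝ)| ≤ 2 * r
        have e : t + (((0 : ℕ) : ℤ) + 1) = t + 1 := by simp
        rw [e]
        exact hk2
      rw [Set.indicator_of_mem hin]
      refine mul_pos (Real.exp_pos _) ?_
      show 0 < (if k = 0 then (1 : ℝ) else 0) + (if k - 1 = 0 then (1 : ℝ) else 0)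
      rcases hk with rfl | rfl <;> norm_num
    · have e : (((t, b) : Pt).1 + ((1 : ℕ) : ℤ), ((t, b) : Pt).2 + k) = ((t + 1, b + k) : Pt) := by
        simp
      rw [e]
      exact ih (t + 1) (b + k) hk2

theorem S_pos {r : ℝ} (hr : 1 / 2 ≤ r) (t ℓ : ℕ) (η : Env) : 0 < S μ r 0 t ℓ η := by
  have hR : Rx (Rg r) 0 = Rg r := by
    ext p
    show ((p.1, p.2 - 0) : Pt) ∈ Rg r ↔ p ∈ Rg r
    rw [sub_zero]
  have hb : ((t : ℤ) / 2) ∈ Win r t := by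
    rw [mem_Win]
    obtain ⟨T, hT⟩ : ∃ T : ℤ, T = (t : ℤ) / 2 := ⟨_, rfl⟩
    have h3 : 2 * T ≤ (t : ℤ) ∧ (t : ℤ) ≤ 2 * T + 1 := by omega
    have h4 : 2 * (T : ℝ) ≤ t := by exact_mod_cast h3.1
    have h5 : (t : ℝ) ≤ 2 * (T : ℝ) + 1 := by exact_mod_cast h3.2
    rw [← hT, abs_le]
    constructor <;> linarith
  refine lt_of_lt_of_le ?_ (ZR_le_S (μ := μ) (x := 0) ℓ η hb)
  rw [hR, zero_add]
  refine ZR_pos hr η ℓ (t : ℤ) ((t : ℤ) / 2) ?_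
  rw [Int.cast_natCast]
  exact mem_Win.1 hb

end

end Pool.Agent.W_7d29a1_59T
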