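import Pool.Agent.W_7d29a1_59T.Tb

/-!
MP_7d29a1_pr, THEOREM (T) (proofs row 630): tightness of the wandering. Part c: boost of a probability by disjoint tubes, the glue,
the block with a luck.
-/

namespace Pool.Agent.W_7d29a1_59T

open MeasureTheory ProbabilityTheory Filter Topology Pool.Agent.W_7d29a1_F
open Pool.Agent.W_7d29a1_SL

noncomputable section

variable {μ : Measure ℝ} [IsProbabilityMeasure μ]

/-- The tubes are disjoint. -/
theorem tubes_disj {r : ℝ} {x1 : ℤ} (hx1 : 2 * r < x1) {i j : ℕ} (hij : i ≠ j) :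
    Disjoint (Rx (Rg r) (i * x1)) (Rx (Rg r) (j * x1)) := by
  rw [Set.disjoint_left]
  intro p hp hq
  have h1 : |2 * ((p.2 - i * x1 : ℤ) : ℝ) - (p.1 : ℝ)| ≤ 2 * r := hp
  have h2 : |2 * ((p.2 - j * x1 : ℤ) : ℝ) - (p.1 : ℝ)| ≤ 2 * r := hq
  push_cast at h1 h2
  have h3 := abs_le.1 h1
  have h4 := abs_le.1 h2
  have hx0 : 0 ≤ (x1 : ℝ) := by
    have : 0 ≤ 2 * r := (abs_nonneg _).trans h1
    linarith
  rcases lt_or_gt_of_ne hij with h | h
  · have h5 : (i : ℝ) + 1 ≤ j := by exact_mod_cast h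
    have h6 : ((i : ℝ) + 1) * x1 ≤ j * x1 := mul_le_mul_of_nonneg_right h5 hx0
    linarith [h3.1, h3.2, h4.1, h4.2]
  · have h5 : (j : ℝ) + 1 ≤ i := by exact_mod_cast h
    have h6 : ((j : ℝ) + 1) * x1 ≤ i * x1 := mul_le_mul_of_nonneg_right h5 hx0
    linarith [h3.1, h3.2, h4.1, h4.2]

/-- The event of `boost`: a cheap site of the row `m` at which a good tube starts. -/
def Bo (μ : Measure ℝ) (r : ℝ) (M m ℓ : ℕ) (x1 : ℤ) (A u : ℝ) (η : Env) : Prop :=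
  ∃ y : ℤ, Real.exp (-A) ≤ W μ 0 η 0 m y ∧
    ∃ i < M, y - i * x1 ∈ Win r m ∧ u ≤ ZR μ 0 (Rx (Rg r) (i * x1)) η ((m : ℤ), y) ℓ

/-- BOOST: `M` disjoint tubes. -/
theorem boost {r : ℝ} {M m ℓ : ℕ} {x1 : ℤ} {κ v A e N : ℝ} (hx1 : 2 * r < x1)
    (hκ : κ ≤ (law μ).real {η | v ≤ S μ r 0 m ℓ η}) (hN : ((Win r m).card : ℝ) ≤ N) (hv : 0 < v) (he : 0 ≤ e)
    (hc : ∀ y : ℤ, (∃ i < M, y - i * x1 ∈ Win r m) → (law μ).real {η | W μ 0 η 0 m y < Real.exp (-A)} ≤ e) :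
    (law μ).real {η | ¬ Bo μ r M m ℓ x1 A (v / N) η} ≤ (1 - κ) ^ M + e := by
  classical
  -- positions
  obtain ⟨K, hK⟩ : ∃ K : Finset ℤ, K = (Finset.range M).biUnion fun i => (Win r m).image fun b => (i : ℤ) * x1 + b :=
    ⟨_, rfl⟩
  have hKm : ∀ y : ℤ, y ∈ K ↔ ∃ i < M, y - i * x1 ∈ Win r m := by
    intro y
    rw [hK, Finset.mem_biUnion]
    constructor
    · rintro ⟨i, hi, hy⟩
      obtain ⟨b, hb, rfl⟩ := Finset.mem_image.1 hy
      refine ⟨i, Finset.mem_range.1 hi, ?_⟩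
      rwa [add_sub_cancel_left]
    · rintro ⟨i, hi, hy⟩
      refine ⟨i, Finset.mem_range.2 hi, Finset.mem_image.2 ⟨_, hy, by ring⟩⟩
  obtain ⟨P, hP⟩ : ∃ P : ℤ → Env → Prop, P = fun y η =>
      ∃ i < M, y - i * x1 ∈ Win r m ∧ v / N ≤ ZR μ 0 (Rx (Rg r) (i * x1)) η ((m : ℤ), y) ℓ := ⟨_, rfl⟩
  have hPm : ∀ y ∈ K, MeasurableSet {η | P y η} := by
    intro y _
    have e1 : {η | P y η} = ⋃ i : ℕ, ⋃ (_ : i < M ∧ y - i * x1 ∈ Win r m),
        {η | v / N ≤ ZR μ 0 (Rx (Rg r) (i * x1)) η ((m : ℤ), y) ℓ} := by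
      ext η
      rw [hP]
      simp only [Set.mem_ofPred_eq, Set.mem_iUnion, exists_prop, and_assoc]
    rw [e1]
    exact MeasurableSet.iUnion fun i => MeasurableSet.iUnion fun _ =>
      measurableSet_le measurable_const (measurable_ZR _ _ _)
  have hPd : ∀ y ∈ K, ∀ η η' : Env, (∀ x ∈ rows m ((m : ℤ) + ℓ), η x = η' x) → (P y η ↔ P y η') := by
    intro y _ η η' h
    have h1 : ∀ i : ℕ, ZR μ 0 (Rx (Rg r) (i * x1)) η ((m : ℤ), y) ℓ = ZR μ 0 (Rx (Rg r) (i * x1)) η' ((m : ℤ), y) ℓ :=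
      fun i => ZR_dep (μ := μ) (s := 0) (Rx (Rg r) (i * x1)) ((m : ℤ), y) ℓ fun p hp => h p hp.2
    rw [hP]
    simp only [h1]
  -- no good tube
  have hnone := prob_none (μ := μ) (M := M) (P := fun i η => v ≤ S μ r (i * x1) m ℓ η)
    (A := fun i => Rx (Rg r) (i * x1) ∩ rows m ((m : ℤ) + ℓ)) (p := κ)
    (fun i _ => measurableSet_le measurable_const (measurable_S r (i * x1) m ℓ))
    (fun i _ η η' h => by
      have h1 : S μ r (i * x1) m ℓ η = S μ r (i * x1) m ℓ η' := S_dep (μ := μ) r (i * x1) m ℓ h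
      rw [h1])
    (fun i _ j _ hij => (tubes_disj hx1 hij).mono Set.inter_subset_left Set.inter_subset_left)
    (fun i _ => by
      have h1 := S_law (μ := μ) r (i * x1) m 0 ℓ v
      rw [mul_zero, add_zero] at h1
      rw [h1]
      exact hκ)
  -- the choice
  have hch := choice_le (μ := μ) K (fun k => k) (fun _ _ h => h) (P := P)
    (Q := fun y η => W μ 0 η 0 m y < Real.exp (-A))
    (A := rows m ((m : ℤ) + ℓ)) (B := rows 0 m) (rows_disj le_rfl).symm hPm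
    (fun y _ => measurableSet_lt (measurable_W _ _ _) measurable_const) hPd
    (fun y _ η η' h => by
      have h2 : W μ 0 η 0 m y = W μ 0 η' 0 m y := by
        refine W_dep_rows (μ := μ) (s := 0) 0 m y fun p hp => h p ?_
        simpa using hp
      rw [h2])
    (ε := e) (fun y hy => hc y ((hKm y).1 hy)) he
  have hsub : {η | ¬ Bo μ r M m ℓ x1 A (v / N) η} ⊆ {η | ∀ i < M, ¬ v ≤ S μ r (i * x1) m ℓ η} ∪
      {η | ∃ i ∈ K, Fi K (fun k => k) (fun j => P j η) i ∧ W μ 0 η 0 m i < Real.exp (-A)} := by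
    intro η hη
    have hη' : ¬ Bo μ r M m ℓ x1 A (v / N) η := hη
    by_contra hcon
    simp only [Set.mem_union, Set.mem_ofPred_eq, not_or, not_forall, not_not] at hcon
    obtain ⟨⟨i, hi, h1⟩, h2⟩ := hcon
    -- a good start in the tube `i`
    obtain ⟨b, hb, h3⟩ : ∃ b ∈ Win r m, v / N ≤ ZR μ 0 (Rx (Rg r) (i * x1)) η ((m : ℤ), i * x1 + b) ℓ := by
      by_contra hall
      push Not at hall
      have hne : (Win r m).Nonempty := by
        by_contra hem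
        rw [Finset.not_nonempty_iff_eq_empty] at hem
        unfold S at h1
        rw [hem, Finset.sum_empty] at h1
        linarith
      have h4 : S μ r (i * x1) m ℓ η < ∑ _b ∈ Win r m, v / N := Finset.sum_lt_sum_of_nonempty hne hall
      rw [Finset.sum_const, nsmul_eq_mul] at h4
      have hN0 : 0 < N := by
        have : (1 : ℝ) ≤ (Win r m).card := by exact_mod_cast Finset.card_pos.2 hne
        linarith
      have h5 : ((Win r m).card : ℝ) * (v / N) ≤ N * (v / N) :=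
        mul_le_mul_of_nonneg_right hN (div_nonneg hv.le hN0.le)
      have h6 : N * (v / N) = v := by field_simp
      linarith
    have hy : P (i * x1 + b) η := by
      rw [hP]
      exact ⟨i, hi, by rwa [add_sub_cancel_left], h3⟩
    have hyK : (i : ℤ) * x1 + b ∈ K := (hKm _).2 ⟨i, hi, by rwa [add_sub_cancel_left]⟩
    obtain ⟨k, hk, hFi⟩ : ∃ k ∈ K, Fi K (fun k => k) (fun j => P j η) k := by
      by_contra h5
      push Not at h5
      have h6 := sum_Fi K (r := fun k : ℤ => k) (fun _ _ h => h) (fun j => P j η)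
      rw [io_of ⟨_, hyK, hy⟩, Finset.sum_eq_zero fun i hi => io_not (h5 i hi)] at h6
      exact zero_ne_one h6
    have hWk : ¬ W μ 0 η 0 m k < Real.exp (-A) := fun hlt => h2 ⟨k, hk, hFi, hlt⟩
    have hPk : P k η := hFi.1
    rw [hP] at hPk
    exact hη' ⟨k, not_lt.1 hWk, hPk⟩
  have h := (measureReal_mono hsub (measure_ne_top (law μ) _)).trans (measureReal_union_le _ _)
  linarith

theorem Bo_V {r : ℝ} {M m ℓ : ℕ} {x1 : ℤ} {A u : ℝ} {η : Env} (h : Bo μ r M m ℓ x1 A u η) :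
    Real.exp (-A) * u ≤ Real.exp (V μ 0 η 0 (m + ℓ)) := by
  obtain ⟨y, hy, i, -, -, hz⟩ := h
  have h1 := W_mul_exp_V_le (μ := μ) (s := 0) η 0 m ℓ y
  have e1 : (((0 : Pt).1 + (m : ℤ), (0 : Pt).2 + y) : Pt) = (((m : ℤ), y) : Pt) := by simp
  rw [e1] at h1
  have h2 := ZR_le (μ := μ) (s := 0) (Rx (Rg r) (i * x1)) η ((m : ℤ), y) ℓ
  have h3 : u ≤ Real.exp (V μ 0 η ((m : ℤ), y) ℓ) := hz.trans h2
  calc Real.exp (-A) * u ≤ Real.exp (-A) * Real.exp (V μ 0 η ((m : ℤ), y) ℓ) :=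
        mul_le_mul_of_nonneg_left h3 (Real.exp_pos _).le
    _ ≤ W μ 0 η 0 m y * Real.exp (V μ 0 η ((m : ℤ), y) ℓ) := mul_le_mul_of_nonneg_right hy (Real.exp_pos _).le
    _ ≤ _ := h1

/-- The paths of `Bo` end in the wide window. -/
theorem Bo_N {r H : ℝ} {M m ℓ : ℕ} {x1 : ℤ} {A u : ℝ} {η : Env} (hx0 : 0 ≤ x1) (hℓ : 1 ≤ ℓ) (hH : M * (x1 : ℝ) + r ≤ H)
    (h : Bo μ r M m ℓ x1 A u η) :
    Real.exp (-A) * u ≤ ∑ b ∈ Win H (m + ℓ), W μ 0 η 0 (m + ℓ) b := by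
  classical
  obtain ⟨y, hy, i, hi, -, hz⟩ := h
  have hx0' : (0 : ℝ) ≤ x1 := by exact_mod_cast hx0
  have hi' : (i : ℝ) ≤ M := by exact_mod_cast hi.le
  have hiM : (i : ℝ) * x1 ≤ M * x1 := mul_le_mul_of_nonneg_right hi' hx0'
  have hi0 : 0 ≤ (i : ℝ) * x1 := by positivity
  have key : W μ 0 η 0 m y * ZR μ 0 (Rx (Rg r) (i * x1)) η ((m : ℤ), y) ℓ ≤
      ∑ b ∈ Win H (m + ℓ), W μ 0 η 0 (m + ℓ) b := by
    unfold ZR
    rw [Finset.mul_sum]
    have h1 : ∀ k ∈ Finset.Icc (0 : ℤ) ℓ, W μ 0 η 0 m y * WR μ 0 (Rx (Rg r) (i * x1)) η ((m : ℤ), y) ℓ k ≤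
        if y + k ∈ Win H (m + ℓ) then W μ 0 η 0 (m + ℓ) (y + k) else 0 := by
      intro k _
      split_ifs with hk
      · have h2 := W_mul_le (μ := μ) (s := 0) η 0 m ℓ y k
        have e1 : (((0 : Pt).1 + (m : ℤ), (0 : Pt).2 + y) : Pt) = (((m : ℤ), y) : Pt) := by simp
        rw [e1] at h2
        refine le_trans ?_ h2
        exact mul_le_mul_of_nonneg_left (WR_le_W _ _ _ _ _) (W_nonneg _ _ _ _)
      · rw [WR_end (Rx (Rg r) (i * x1)) η ((m : ℤ), y) hℓ (k := k) ?_, mul_zero]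
        intro hin
        apply hk
        rw [mem_Win]
        have h3 : |2 * ((y + k - i * x1 : ℤ) : ℝ) - (((m : ℤ) + ℓ : ℤ) : ℝ)| ≤ 2 * r := hin
        push_cast at h3 ⊢
        have h4 := abs_le.1 h3
        rw [abs_le]
        have hr0 : 0 ≤ 2 * r := (abs_nonneg _).trans h3
        constructor <;> linarith [h4.1, h4.2]
    refine (Finset.sum_le_sum h1).trans ?_
    rw [← Finset.sum_filter]
    have hinj : Set.InjOn (fun k : ℤ => y + k) (((Finset.Icc (0 : ℤ) ℓ).filter fun k => y + k ∈ Win H (m + ℓ)) : Finset ℤ) :=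
      fun a _ b _ hab => by simpa using hab
    rw [← Finset.sum_image (f := fun b => W μ 0 η 0 (m + ℓ) b) hinj]
    refine Finset.sum_le_sum_of_subset_of_nonneg ?_ fun _ _ _ => W_nonneg _ _ _ _
    intro b hb
    obtain ⟨k, hk, rfl⟩ := Finset.mem_image.1 hb
    exact (Finset.mem_filter.1 hk).2
  refine le_trans ?_ key
  by_cases hu : 0 ≤ u
  · exact mul_le_mul hy hz hu (W_nonneg _ _ _ _)
  · push Not at hu
    have h5 : Real.exp (-A) * u ≤ 0 := mul_nonpos_of_nonneg_of_nonpos (Real.exp_pos _).le hu.le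
    exact h5.trans (mul_nonneg (W_nonneg _ _ _ _) (ZR_nonneg _ _ _ _))

end

end Pool.Agent.W_7d29a1_59T
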