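import Pool.Agent.W_7d29a1_59T.Tc

/-!
MP_7d29a1_pr, THEOREM (T) (proofs row 630): tightness of the wandering. Part d: the glue and the lucky block.
-/

namespace Pool.Agent.W_7d29a1_59T

open MeasureTheory ProbabilityTheory Filter Topology Pool.Agent.W_7d29a1_F
open Pool.Agent.W_7d29a1_SL

noncomputable section

variable {μ : Measure ℝ} [IsProbabilityMeasure μ]

private theorem W_shift_law (g : ℕ) (y : ℤ) (c : Pt) (u : ℝ) :
    (law μ).real {η | W μ 0 η c g y < u} = (law μ).real {η | W μ 0 η 0 g y < u} := by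
  have hms : MeasurableSet {η : Env | W μ 0 η 0 g y < u} := measurableSet_lt (measurable_W _ _ _) measurable_const
  rw [← real_sh (μ := μ) c hms]
  congr 1
  ext η
  show W μ 0 η c g y < u ↔ W μ 0 (sh c η) 0 g y < u
  rw [W_sh, zero_add]

private theorem V_shift_law (g : ℕ) (c : Pt) {P : ℝ → Prop} (hP : MeasurableSet {x | P x}) :
    (law μ).real {η | P (V μ 0 η c g)} = (law μ).real {η | P (V μ 0 η 0 g)} := by
  have hms : MeasurableSet {η : Env | P (V μ 0 η 0 g)} := (measurable_V 0 g) hP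
  rw [← real_sh (μ := μ) c hms]
  congr 1
  ext η
  show P (V μ 0 η c g) ↔ P (V μ 0 (sh c η) 0 g)
  rw [V_sh, zero_add]

/-- From a window to a site. -/
theorem glue {H : ℝ} {t g : ℕ} {Y : ℤ} {A e w : ℝ} (he : 0 ≤ e)
    (hc : ∀ b ∈ Win H t, (law μ).real {η | W μ 0 η 0 g (Y - b) < Real.exp (-A)} ≤ e) :
    (law μ).real {η | w ≤ ∑ b ∈ Win H t, W μ 0 η 0 t b ∧ W μ 0 η 0 (t + g) Y < Real.exp (-A) * w / 2} ≤ 2 * e := by
  classical
  have h := avg_half (μ := μ) (K := Win H t) (ω := fun b η => W μ 0 η 0 t b)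
    (G := fun b η => Real.exp (-A) ≤ W μ 0 η ((t : ℤ), b) g (Y - b)) (A := rows 0 t) (B := rows t ((t : ℤ) + g)) (d := e)
    (fun b _ η => W_nonneg _ _ _ _) (fun b _ => measurable_W _ _ _)
    (fun b _ η η' hh => by
      refine W_dep_rows (μ := μ) (s := 0) 0 t b fun p hp => hh p ?_
      simpa using hp)
    (fun b _ => measurableSet_le measurable_const (measurable_W _ _ _))
    (fun b _ η η' hh => by
      have h1 : W μ 0 η ((t : ℤ), b) g (Y - b) = W μ 0 η' ((t : ℤ), b) g (Y - b) :=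
        W_dep_rows (μ := μ) (s := 0) ((t : ℤ), b) g (Y - b) hh
      rw [h1])
    (rows_disj le_rfl)
    (fun b hb => by
      have e1 : {η : Env | ¬ Real.exp (-A) ≤ W μ 0 η ((t : ℤ), b) g (Y - b)} =
          {η | W μ 0 η ((t : ℤ), b) g (Y - b) < Real.exp (-A)} := by
        ext η
        exact not_le
      rw [e1, W_shift_law]
      exact hc b hb) he
  refine (measureReal_mono (fun η hη => ?_) (measure_ne_top _ _)).trans h
  obtain ⟨h1, h2⟩ : w ≤ ∑ b ∈ Win H t, W μ 0 η 0 t b ∧ W μ 0 η 0 (t + g) Y < Real.exp (-A) * w / 2 := hη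
  show ∑ b ∈ Win H t, W μ 0 η 0 t b * io (Real.exp (-A) ≤ W μ 0 η ((t : ℤ), b) g (Y - b)) <
    (∑ b ∈ Win H t, W μ 0 η 0 t b) / 2
  have h3 : ∑ b ∈ Win H t, W μ 0 η 0 t b * W μ 0 η ((t : ℤ), b) g (Y - b) ≤ W μ 0 η 0 (t + g) Y := by
    rw [W_add (μ := μ) (s := 0) η 0 t g Y]
    have h4 : ∑ b ∈ Win H t, W μ 0 η 0 t b * W μ 0 η ((t : ℤ), b) g (Y - b) =
        ∑ b ∈ (Win H t).filter (fun b => b ∈ Finset.Icc (0 : ℤ) t),
          W μ 0 η 0 t b * W μ 0 η ((t : ℤ), b) g (Y - b) := by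
      refine (Finset.sum_filter_of_ne fun b _ hb => ?_).symm
      by_contra hn
      apply hb
      rw [W_eq_zero η 0 (fun h5 => hn (Finset.mem_Icc.2 h5)), zero_mul]
    rw [h4]
    have e2 : ∀ k : ℤ, (((0 : Pt).1 + (t : ℤ), (0 : Pt).2 + k) : Pt) = (((t : ℤ), k) : Pt) := fun k => by simp
    simp only [e2]
    exact Finset.sum_le_sum_of_subset_of_nonneg (fun b hb => (Finset.mem_filter.1 hb).2)
      fun b _ _ => mul_nonneg (W_nonneg _ _ _ _) (W_nonneg _ _ _ _)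
  have h5 : Real.exp (-A) * ∑ b ∈ Win H t, W μ 0 η 0 t b * io (Real.exp (-A) ≤ W μ 0 η ((t : ℤ), b) g (Y - b)) ≤
      ∑ b ∈ Win H t, W μ 0 η 0 t b * W μ 0 η ((t : ℤ), b) g (Y - b) := by
    rw [Finset.mul_sum]
    refine Finset.sum_le_sum fun b _ => ?_
    by_cases hg : Real.exp (-A) ≤ W μ 0 η ((t : ℤ), b) g (Y - b)
    · rw [io_of hg, mul_one, mul_comm]
      exact mul_le_mul_of_nonneg_left hg (W_nonneg _ _ _ _)
    · rw [io_not hg, mul_zero, mul_zero]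
      exact mul_nonneg (W_nonneg _ _ _ _) (W_nonneg _ _ _ _)
  have h6 : Real.exp (-A) * ∑ b ∈ Win H t, W μ 0 η 0 t b * io (Real.exp (-A) ≤ W μ 0 η ((t : ℤ), b) g (Y - b)) <
      Real.exp (-A) * ((∑ b ∈ Win H t, W μ 0 η 0 t b) / 2) := by
    have h7 : Real.exp (-A) * w / 2 ≤ Real.exp (-A) * ((∑ b ∈ Win H t, W μ 0 η 0 t b) / 2) := by
      rw [mul_div_assoc]
      exact mul_le_mul_of_nonneg_left (by linarith) (Real.exp_pos _).le
    linarith
  exact lt_of_mul_lt_mul_left h6 (Real.exp_pos _).le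

/-- A block with a luck in the middle. -/
theorem block {t m' l : ℕ} {y0 : ℤ} {w v d : ℝ} (hv0 : 0 ≤ v) (hd0 : 0 ≤ d)
    (hd : (law μ).real {η | Real.exp (V μ 0 η 0 l) < v} ≤ d) :
    (law μ).real {η | w ≤ W μ 0 η 0 t y0 ∧
      Real.exp (V μ 0 η 0 (t + (m' + l))) < w * Real.exp (V μ 0 η ((t : ℤ), y0) m') * v / 2} ≤ 2 * d := by
  classical
  have h := avg_half (μ := μ) (K := Finset.Icc (0 : ℤ) m') (ω := fun c η => W μ 0 η ((t : ℤ), y0) m' c)
    (G := fun c η => v ≤ Real.exp (V μ 0 η ((t : ℤ) + m', y0 + c) l)) (A := rows t ((t : ℤ) + m'))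
    (B := rows ((t : ℤ) + m') ((t : ℤ) + m' + l)) (d := d)
    (fun b _ η => W_nonneg _ _ _ _) (fun b _ => measurable_W _ _ _)
    (fun b _ η η' hh => W_dep_rows (μ := μ) (s := 0) ((t : ℤ), y0) m' b hh)
    (fun b _ => measurableSet_le measurable_const (measurable_V _ _).exp)
    (fun b _ η η' hh => by
      have h1 : V μ 0 η ((t : ℤ) + m', y0 + b) l = V μ 0 η' ((t : ℤ) + m', y0 + b) l :=
        V_dep_rows (μ := μ) (s := 0) ((t : ℤ) + m', y0 + b) l hh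
      rw [h1])
    (rows_disj le_rfl)
    (fun b _ => by
      have e1 : {η : Env | ¬ v ≤ Real.exp (V μ 0 η ((t : ℤ) + m', y0 + b) l)} =
          {η | Real.exp (V μ 0 η ((t : ℤ) + m', y0 + b) l) < v} := by
        ext η
        exact not_le
      rw [e1, V_shift_law (μ := μ) l ((t : ℤ) + m', y0 + b) (P := fun x => Real.exp x < v)
        (measurableSet_lt Real.measurable_exp measurable_const)]
      exact hd) hd0
  refine (measureReal_mono (fun η hη => ?_) (measure_ne_top _ _)).trans h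
  obtain ⟨h1, h2⟩ : w ≤ W μ 0 η 0 t y0 ∧
      Real.exp (V μ 0 η 0 (t + (m' + l))) < w * Real.exp (V μ 0 η ((t : ℤ), y0) m') * v / 2 := hη
  show ∑ c ∈ Finset.Icc (0 : ℤ) m', W μ 0 η ((t : ℤ), y0) m' c * io (v ≤ Real.exp (V μ 0 η ((t : ℤ) + m', y0 + c) l)) <
    (∑ c ∈ Finset.Icc (0 : ℤ) m', W μ 0 η ((t : ℤ), y0) m' c) / 2
  have h3 := W_mul_exp_V_le (μ := μ) (s := 0) η 0 t (m' + l) y0
  have e1 : (((0 : Pt).1 + (t : ℤ), (0 : Pt).2 + y0) : Pt) = (((t : ℤ), y0) : Pt) := by simp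
  rw [e1] at h3
  have h4 : v * ∑ c ∈ Finset.Icc (0 : ℤ) m', W μ 0 η ((t : ℤ), y0) m' c *
      io (v ≤ Real.exp (V μ 0 η ((t : ℤ) + m', y0 + c) l)) ≤ Real.exp (V μ 0 η ((t : ℤ), y0) (m' + l)) := by
    rw [exp_V_add (μ := μ) (s := 0) η ((t : ℤ), y0) m' l, Finset.mul_sum]
    refine Finset.sum_le_sum fun c _ => ?_
    by_cases hg : v ≤ Real.exp (V μ 0 η ((t : ℤ) + m', y0 + c) l)
    · rw [io_of hg, mul_one, mul_comm]
      exact mul_le_mul_of_nonneg_left hg (W_nonneg _ _ _ _)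
    · rw [io_not hg, mul_zero, mul_zero]
      exact mul_nonneg (W_nonneg _ _ _ _) (Real.exp_pos _).le
  have h5 : Real.exp (V μ 0 η ((t : ℤ), y0) m') = ∑ c ∈ Finset.Icc (0 : ℤ) m', W μ 0 η ((t : ℤ), y0) m' c :=
    exp_V (μ := μ) (s := 0) η ((t : ℤ), y0) m'
  rw [h5] at h2
  by_contra hcon
  push Not at hcon
  by_cases hw : 0 ≤ w
  · have h6 : w * (v * ((∑ c ∈ Finset.Icc (0 : ℤ) m', W μ 0 η ((t : ℤ), y0) m' c) / 2)) ≤
        W μ 0 η 0 t y0 * Real.exp (V μ 0 η ((t : ℤ), y0) (m' + l)) := by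
      refine mul_le_mul h1 ((mul_le_mul_of_nonneg_left hcon hv0).trans h4) ?_ (W_nonneg _ _ _ _)
      exact mul_nonneg hv0 (div_nonneg (Finset.sum_nonneg fun _ _ => W_nonneg _ _ _ _) (by norm_num))
    have h7 : w * (∑ c ∈ Finset.Icc (0 : ℤ) m', W μ 0 η ((t : ℤ), y0) m' c) * v / 2 =
        w * (v * ((∑ c ∈ Finset.Icc (0 : ℤ) m', W μ 0 η ((t : ℤ), y0) m' c) / 2)) := by ring
    linarith
  · push Not at hw
    have h8 : 0 ≤ ∑ c ∈ Finset.Icc (0 : ℤ) m', W μ 0 η ((t : ℤ), y0) m' c :=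
      Finset.sum_nonneg fun _ _ => W_nonneg _ _ _ _
    have h9 : w * (∑ c ∈ Finset.Icc (0 : ℤ) m', W μ 0 η ((t : ℤ), y0) m' c) * v / 2 ≤ 0 := by
      have h10 : w * (∑ c ∈ Finset.Icc (0 : ℤ) m', W μ 0 η ((t : ℤ), y0) m' c) ≤ 0 :=
        mul_nonpos_of_nonpos_of_nonneg hw.le h8
      have h11 := mul_nonpos_of_nonpos_of_nonneg h10 hv0
      linarith
    have := Real.exp_pos (V μ 0 η 0 (t + (m' + l)))
    linarith

end

end Pool.Agent.W_7d29a1_59T
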