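import Pool.Agent.W_7d29a1_59T.Tg

/-!
MP_7d29a1_pr, THEOREM (T) (proofs row 630): the wandering at the scale `wd μ n` is tight away from `0`.
-/

namespace Pool.Agent.W_7d29a1_59T

open MeasureTheory ProbabilityTheory Filter Topology Pool.Agent.W_7d29a1_F
open Pool.Agent.W_7d29a1_h4g Pool.Agent.W_7d29a1_G Pool.Agent.W_7d29a1_L Pool.Agent.W_7d29a1_SL Pool.Agent.W_7d29a1_SR

variable {μ : Measure ℝ} [IsProbabilityMeasure μ] {c C : ℝ} {n₀ : ℕ}

private theorem St_eq (r : ℝ) : St r 0 = Rg r := by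
  ext p
  show |2 * ((p.2 : ℝ) - (((0 : Pt).2 : ℤ) : ℝ)) - ((p.1 : ℝ) - (((0 : Pt).1 : ℤ) : ℝ))| ≤ 2 * r ↔
    |2 * (p.2 : ℝ) - (p.1 : ℝ)| ≤ 2 * r
  simp only [Prod.fst_zero, Prod.snd_zero, Int.cast_zero, sub_zero]

/-- The choice of the two times. -/
private theorem times {n J J2 L : ℕ} (hL : 10 ≤ L) (hn : 4 * (J + 2) * 2 ^ (J2 + 3) * L ≤ n) : ∃ a a' : ℕ,
    L ≤ 2 * a ∧ 2 ^ J2 * (2 * a) ≤ 2 * a' ∧ 2 * a < a' ∧ n ≤ 4 * (J + 2) * 2 ^ (J2 + 3) * a ∧
    n ≤ 2 * (J + 2) * (2 * a') ∧ 2 * a' ≤ n ∧ 2 * a ≤ n ∧ (J + 1) * (2 * a') + 2 * a ≤ n := by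
  obtain ⟨a', ha'⟩ : ∃ a', a' = n / (2 * (J + 2)) := ⟨_, rfl⟩
  obtain ⟨a, ha⟩ : ∃ a, a = a' / 2 ^ (J2 + 2) := ⟨_, rfl⟩
  have h2J : 0 < 2 * (J + 2) := by omega
  have h2J2 : 0 < 2 ^ (J2 + 2) := by positivity
  have ha'1 : 2 * (J + 2) * a' ≤ n := by
    rw [ha']
    exact Nat.mul_div_le n _
  have ha'2 : n < 2 * (J + 2) * (a' + 1) := by
    rw [ha']
    exact Nat.lt_mul_div_succ n h2J
  have ha1 : 2 ^ (J2 + 2) * a ≤ a' := by
    rw [ha]
    exact Nat.mul_div_le a' _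
  have ha2' : a' < 2 ^ (J2 + 2) * (a + 1) := by
    rw [ha]
    exact Nat.lt_mul_div_succ a' h2J2
  have haL : L ≤ 2 * a := by
    by_contra hcon
    have h2 : a' + 1 ≤ 2 ^ (J2 + 2) * (a + 1) := ha2'
    have h3 : n < 2 * (J + 2) * (2 ^ (J2 + 2) * (a + 1)) :=
      lt_of_lt_of_le ha'2 (Nat.mul_le_mul_left _ h2)
    have h4 : 2 * (J + 2) * (2 ^ (J2 + 2) * (a + 1)) ≤ 4 * (J + 2) * 2 ^ (J2 + 3) * L := by
      have e1 : 4 * (J + 2) * 2 ^ (J2 + 3) * L = 2 * (J + 2) * (2 ^ (J2 + 2) * (4 * L)) := by ring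
      rw [e1]
      exact Nat.mul_le_mul_left _ (Nat.mul_le_mul_left _ (by omega))
    exact absurd (h3.trans_le (h4.trans hn)) (lt_irrefl n)
  have h4a : 4 * a ≤ 2 ^ (J2 + 2) * a := by
    refine Nat.mul_le_mul_right _ ?_
    calc 4 = 2 ^ 2 := by norm_num
      _ ≤ 2 ^ (J2 + 2) := Nat.pow_le_pow_right (by norm_num) (by omega)
  have haa : 2 * a < a' := by omega
  have ha'n : 2 * a' ≤ n := le_trans (Nat.mul_le_mul_right _ (by omega)) ha'1
  refine ⟨a, a', haL, ?_, haa, ?_, ?_, ha'n, by omega, ?_⟩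
  · have e1 : 2 ^ (J2 + 2) * a = 2 * (2 ^ J2 * (2 * a)) := by ring
    omega
  · have h1 : n ≤ 2 * (J + 2) * (2 ^ (J2 + 2) * (a + 1)) :=
      (lt_of_lt_of_le ha'2 (Nat.mul_le_mul_left _ ha2')).le
    refine h1.trans ?_
    have e1 : 4 * (J + 2) * 2 ^ (J2 + 3) * a = 2 * (J + 2) * (2 ^ (J2 + 2) * (4 * a)) := by ring
    rw [e1]
    exact Nat.mul_le_mul_left _ (Nat.mul_le_mul_left _ (by omega))
  · exact ha'2.le.trans (Nat.mul_le_mul_left _ (by omega))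
  · refine le_trans ?_ ha'1
    have e1 : 2 * (J + 2) * a' = (J + 1) * (2 * a') + 2 * a' := by ring
    rw [e1]
    exact Nat.add_le_add_left (by omega) _

private theorem nums {ε A x Cε C E' : ℝ} (hε : 0 < ε) (hx : 0 < x) (hCε : Cε = C * Real.log (C / (ε / 32)))
    (h1 : Real.log (8 / ε) + 2 ≤ E') (h2 : 4 * A ≤ E') (h3 : Real.log x ≤ E') (h0 : 1 ≤ E') :
    2 / ε * Real.exp (A + 1) * (4 * Real.exp 1 * x ^ 2 * (x * Real.exp (C * E' * Real.log (C / (ε / 32))))) ≤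
      Real.exp ((Cε + 8) * E' - 3 * A) := by
  have e1 : C * E' * Real.log (C / (ε / 32)) = Cε * E' := by
    rw [hCε]
    ring
  have h4 : 2 / ε * Real.exp (A + 1) * (4 * Real.exp 1 * x ^ 2 * (x * Real.exp (C * E' * Real.log (C / (ε / 32))))) =
      Real.exp (Real.log (8 / ε)) * Real.exp (A + 1) * Real.exp 1 *
        (Real.exp (Real.log x) * Real.exp (Real.log x) * Real.exp (Real.log x)) * Real.exp (Cε * E') := by
    rw [e1, Real.exp_log hx, Real.exp_log (by positivity)]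
    ring
  rw [h4, ← Real.exp_add, ← Real.exp_add, ← Real.exp_add, ← Real.exp_add, ← Real.exp_add, ← Real.exp_add,
    Real.exp_le_exp]
  have h5 : (Cε + 8) * E' = Cε * E' + 8 * E' := by ring
  rw [h5]
  linarith

/-- **THEOREM (T).** For every `ε` the polymer of length `n` is confined to the strip of half width `c' wd n` with averaged
probability at most `ε`. -/
theorem tight (h : In μ c C n₀) {ε : ℝ} (hε : 0 < ε) : ∃ c' : ℝ, 0 < c' ∧ ∃ n₁ : ℕ, ∀ n, n₁ ≤ n →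
    ∫ η, cf μ (c' * wd μ n) η 0 n / Real.exp (V μ 0 η 0 n) ∂(law μ) ≤ ε := by
  -- it is enough to treat `ε ≤ 1`
  wlog hε1 : ε ≤ 1 generalizing ε with H
  · obtain ⟨c', hc', n₁, h1⟩ := H one_pos le_rfl
    exact ⟨c', hc', n₁, fun n hn => (h1 n hn).trans (not_le.1 hε1).le⟩
  have hμ := h.em
  have hC := h.C1
  have hC0 : 0 < C := lt_of_lt_of_le one_pos hC
  have hc0 := h.c0
  have hc1 := h.c1
  -- the constants
  obtain ⟨Cε, hCε⟩ : ∃ Cε, Cε = C * Real.log (C / (ε / 32)) := ⟨_, rfl⟩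
  obtain ⟨p, hp, nl, hl⟩ := lucky h (Cε + 8)
  obtain ⟨J, hJ⟩ := exists_pow_lt_of_lt_one (show (0 : ℝ) < ε / 32 by linarith) (show 1 - p < 1 by linarith)
  obtain ⟨e, he⟩ : ∃ e, e = ε / (128 * ((J : ℝ) + 1)) := ⟨_, rfl⟩
  have he0 : 0 < e := by
    rw [he]
    positivity
  obtain ⟨M, hM⟩ := exists_pow_lt_of_lt_one he0 (show 1 - ε / 64 < 1 by linarith)
  obtain ⟨J2, na, ha2⟩ := scale_a h (4 * C / e)
  obtain ⟨nw, hw⟩ := wd_lower h
  obtain ⟨ng, hgr⟩ := wd_growth h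
  obtain ⟨nv, hv⟩ := Filter.eventually_atTop.1 (h.tv.eventually (eventually_le_nhds (show (0 : ℝ) < 1 / 4 by norm_num)))
  obtain ⟨nE, hnE⟩ := Filter.eventually_atTop.1 (h.tE.eventually_ge_atTop (Real.log (8 / ε) + 2))
  obtain ⟨nlo, hlo⟩ := lgo h (δ := 1 / (4 * ((J : ℝ) + 2))) (by positivity)
  obtain ⟨G, hG⟩ : ∃ G : ℕ, G = 4 * (J + 2) * 2 ^ (J2 + 3) := ⟨_, rfl⟩
  have hG0 : 0 < G := by
    rw [hG]
    positivity
  have hGr : (0 : ℝ) < G := by exact_mod_cast hG0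
  obtain ⟨c', hc'⟩ : ∃ c' : ℝ, c' = c / (2 * (2 * (M : ℝ) + 1) * G) := ⟨_, rfl⟩
  have hc'0 : 0 < c' := by
    rw [hc']
    positivity
  obtain ⟨nm, hnm⟩ := Filter.eventually_atTop.1 ((wd_tendsto h).eventually_ge_atTop (2 * M / c + 1 / (2 * c')))
  refine ⟨c', hc'0, G * (nl + na + nw + ng + nv + nE + nm + n₀ + 10) + nlo + nm, fun n hn => ?_⟩
  obtain ⟨L, hL⟩ : ∃ L, L = nl + na + nw + ng + nv + nE + nm + n₀ + 10 := ⟨_, rfl⟩
  rw [← hL] at hn
  have hnL : G * L ≤ n := le_trans (le_trans (Nat.le_add_right _ _) (Nat.le_add_right _ _)) hn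
  have hnlo : nlo ≤ n := le_trans (le_trans (Nat.le_add_left _ _) (Nat.le_add_right _ _)) hn
  have hnnm : nm ≤ n := le_trans (Nat.le_add_left _ _) hn
  rw [hG] at hnL
  obtain ⟨a, a', haL, ha2J, haa, hnGa, hna', ha'n, h2an, hJn⟩ := times (by omega) hnL
  rw [← hG] at hnGa
  have t1 : na ≤ 2 * a' := by omega
  have t2 : nl ≤ 2 * a' := by omega
  have t3 : nE ≤ 2 * a' := by omega
  have t4 : n₀ ≤ 2 * a' := by omega
  have t5 : nw ≤ 2 * a := by omega
  have t6 : ng ≤ 2 * a := by omega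
  have t7 : nv ≤ 2 * a := by omega
  have t8 : nm ≤ 2 * a := by omega
  have t9 : n₀ ≤ 2 * a := by omega
  have t10 : 5 ≤ a := by omega
  have t11 : 2 * a ≤ 2 * a' := by omega
  have t12 : 10 ≤ n := by omega
  clear haL hn hL hnL
  -- the unit
  obtain ⟨E', hE'⟩ : ∃ E', E' = EE μ (2 * a') := ⟨_, rfl⟩
  have hE'1 : 1 ≤ E' := by
    rw [hE']
    exact one_le_EE _
  have hEm1 := one_le_EE (μ := μ) (2 * a)
  obtain ⟨A, hA⟩ : ∃ A, A = C * EE μ (2 * a) / e := ⟨_, rfl⟩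
  have hA0 : 0 < A := by
    rw [hA]
    positivity
  have h4A : 4 * A ≤ E' := by
    have h1 := ha2 (2 * a) (2 * a') t1 ha2J
    rw [← hE'] at h1
    refine le_trans (le_of_eq ?_) h1
    rw [hA]
    ring
  have hlogn : Real.log n ≤ E' := by
    have h1 := hlo n hnlo
    have h2 := scale_b h (m := 2 * a') (n := n) (by linarith) ha'n
    rw [← hE'] at h2
    have h3 : (0 : ℝ) < ((2 * a' : ℕ) : ℝ) := by
      have : 0 < 2 * a' := by linarith
      exact_mod_cast this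
    have h4 : (n : ℝ) ≤ 2 * ((J : ℝ) + 2) * ((2 * a' : ℕ) : ℝ) := by exact_mod_cast hna'
    have h5 : ((2 * a' : ℕ) : ℝ) * EE μ n ≤ ((2 * a' : ℕ) : ℝ) * (4 * ((J : ℝ) + 2) * E') := by
      calc ((2 * a' : ℕ) : ℝ) * EE μ n ≤ 2 * (n * E') := h2
        _ ≤ 2 * (2 * ((J : ℝ) + 2) * ((2 * a' : ℕ) : ℝ) * E') := by
            refine mul_le_mul_of_nonneg_left (mul_le_mul_of_nonneg_right h4 (by linarith)) (by norm_num)
        _ = _ := by ring
    have h6 : EE μ n ≤ 4 * ((J : ℝ) + 2) * E' := le_of_mul_le_mul_left h5 h3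
    have h7 : 1 / (4 * ((J : ℝ) + 2)) * EE μ n ≤ 1 / (4 * ((J : ℝ) + 2)) * (4 * ((J : ℝ) + 2) * E') :=
      mul_le_mul_of_nonneg_left h6 (by positivity)
    have h8 : 1 / (4 * ((J : ℝ) + 2)) * (4 * ((J : ℝ) + 2) * E') = E' := by
      field_simp
    linarith
  have hEc : Real.log (8 / ε) + 2 ≤ E' := by
    rw [hE']
    exact hnE _ t3
  -- the widths
  have hwm0 : 0 ≤ wd μ (2 * a) := mul_nonneg (vA_nonneg hμ zero_le_one _) (Nat.cast_nonneg _)
  have hwn0 : 0 ≤ wd μ n := mul_nonneg (vA_nonneg hμ zero_le_one _) (Nat.cast_nonneg _)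
  have hwG : wd μ n ≤ G * wd μ (2 * a) := by
    have h1 := hw (2 * a) n t5 h2an
    have h2 : (0 : ℝ) < ((2 * a : ℕ) : ℝ) := by
      have : 0 < 2 * a := by linarith
      exact_mod_cast this
    have h3 : (n : ℝ) ≤ G * (a : ℝ) := by exact_mod_cast hnGa
    have h4 : ((2 * a : ℕ) : ℝ) * wd μ n ≤ ((2 * a : ℕ) : ℝ) * (G * wd μ (2 * a)) := by
      calc ((2 * a : ℕ) : ℝ) * wd μ n ≤ 2 * (n * wd μ (2 * a)) := h1
        _ ≤ 2 * (G * (a : ℝ) * wd μ (2 * a)) := by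
            refine mul_le_mul_of_nonneg_left (mul_le_mul_of_nonneg_right h3 hwm0) (by norm_num)
        _ = _ := by
            push_cast
            ring
    exact le_of_mul_le_mul_left h4 h2
  obtain ⟨r, hr⟩ : ∃ r, r = c' * wd μ n := ⟨_, rfl⟩
  have hwm1 := hnm (2 * a) t8
  have hwn1 := hnm n hnnm
  have h2Mc : 0 ≤ 2 * (M : ℝ) / c := by positivity
  have h12c : 0 < 1 / (2 * c') := by positivity
  have hr12 : 1 / 2 ≤ r := by
    rw [hr]
    have h1 : 1 / (2 * c') ≤ wd μ n := by linarith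
    have h2 := mul_le_mul_of_nonneg_left h1 hc'0.le
    have h3 : c' * (1 / (2 * c')) = 1 / 2 := by
      field_simp
    linarith
  have hrM : (2 * (M : ℝ) + 1) * r ≤ c / 2 * wd μ (2 * a) := by
    rw [hr]
    have h1 : (2 * (M : ℝ) + 1) * (c' * wd μ n) ≤ (2 * (M : ℝ) + 1) * (c' * (G * wd μ (2 * a))) :=
      mul_le_mul_of_nonneg_left (mul_le_mul_of_nonneg_left hwG hc'0.le) (by positivity)
    have h2 : (2 * (M : ℝ) + 1) * (c' * (G * wd μ (2 * a))) = c / 2 * wd μ (2 * a) := by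
      rw [hc']
      field_simp
    linarith
  have hMw : (M : ℝ) ≤ c / 2 * wd μ (2 * a) := by
    have h1 : 2 * (M : ℝ) / c ≤ wd μ (2 * a) := by linarith
    have h2 := mul_le_mul_of_nonneg_left h1 (by linarith : 0 ≤ c / 2)
    have h3 : c / 2 * (2 * (M : ℝ) / c) = M := by
      field_simp
    linarith
  have hM0 : (0 : ℝ) ≤ M := Nat.cast_nonneg _
  have hr0 : 0 ≤ r := by linarith
  have hrw : r ≤ c / 2 * wd μ (2 * a) := by
    have : 0 ≤ 2 * (M : ℝ) * r := by positivity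
    linarith
  have hcw2 : c / 2 * wd μ (2 * a) ≤ 1 / 2 * wd μ (2 * a) := mul_le_mul_of_nonneg_right (by linarith) hwm0
  obtain ⟨x1, hx1⟩ : ∃ x1 : ℤ, x1 = ⌊2 * r⌋ + 1 := ⟨_, rfl⟩
  have hx1a : 2 * r < x1 := by
    rw [hx1]
    push_cast
    exact Int.lt_floor_add_one _
  have hx1b : (x1 : ℝ) ≤ 2 * r + 1 := by
    rw [hx1]
    push_cast
    linarith [Int.floor_le (2 * r)]
  have hx10 : 0 ≤ x1 := by
    have h1 : (0 : ℝ) ≤ x1 := by linarith
    exact_mod_cast h1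
  have hH : (M : ℝ) * x1 + r ≤ c * wd μ (2 * a) := by
    have h1 : (M : ℝ) * x1 ≤ M * (2 * r + 1) := mul_le_mul_of_nonneg_left hx1b hM0
    have h2 : (M : ℝ) * (2 * r + 1) + r = (2 * (M : ℝ) + 1) * r + M := by ring
    linarith
  -- the number of sites
  have h2aR : ((2 * a : ℕ) : ℝ) ≤ n := by exact_mod_cast h2an
  have hn10 : (10 : ℝ) ≤ n := by exact_mod_cast t12
  have hnpos : (0 : ℝ) < n := by linarith
  have hvm := hv (2 * a) t7
  have hwm4 : wd μ (2 * a) ≤ 1 / 4 * n := by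
    unfold wd
    calc vA μ 1 (2 * a) * ((2 * a : ℕ) : ℝ) ≤ 1 / 4 * ((2 * a : ℕ) : ℝ) :=
          mul_le_mul_of_nonneg_right hvm (Nat.cast_nonneg _)
      _ ≤ 1 / 4 * n := mul_le_mul_of_nonneg_left h2aR (by norm_num)
  have hN : ((Win r (2 * a)).card : ℝ) ≤ n := by
    refine (card_Win hr0 (2 * a)).trans ?_
    linarith
  -- the strip is thin compared with the block
  have hrblock : 2 * r < wd μ (2 * a') := by
    have h1 := hgr (2 * a) (2 * a') t6 t11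
    rw [← hE'] at h1
    have h2 : EE μ (2 * a) ≤ E' := by
      rw [hE']
      exact EU_mono t11
    have hEm0 : 0 < EE μ (2 * a) := by linarith
    have hw'0 : 0 ≤ wd μ (2 * a') := mul_nonneg (vA_nonneg hμ zero_le_one _) (Nat.cast_nonneg _)
    -- `4 A ≤ E'` with `A ≥ C E_m` gives `4 E_m ≤ E'`
    have h3 : 4 * EE μ (2 * a) ≤ E' := by
      have h4 : EE μ (2 * a) ≤ A := by
        rw [hA, le_div_iff₀ he0]
        have h5 : e ≤ 1 := by
          rw [he, div_le_one (by positivity)]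
          have : (0 : ℝ) ≤ J := Nat.cast_nonneg _
          linarith
        calc EE μ (2 * a) * e ≤ EE μ (2 * a) * 1 := mul_le_mul_of_nonneg_left h5 hEm0.le
          _ = 1 * EE μ (2 * a) := by ring
          _ ≤ C * EE μ (2 * a) := mul_le_mul_of_nonneg_right hC hEm0.le
      linarith
    have h6 : wd μ (2 * a) * (4 * EE μ (2 * a)) ≤ 2 * EE μ (2 * a) * wd μ (2 * a') :=
      (mul_le_mul_of_nonneg_left h3 hwm0).trans h1
    have h7 : 2 * EE μ (2 * a) * (2 * wd μ (2 * a)) ≤ 2 * EE μ (2 * a) * wd μ (2 * a') := by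
      refine le_trans (le_of_eq ?_) h6
      ring
    have h8 : 2 * wd μ (2 * a) ≤ wd μ (2 * a') := le_of_mul_le_mul_left h7 (by linarith)
    have h9 : 0 < wd μ (2 * a) := by
      have : 0 < 2 * M / c + 1 / (2 * c') := by linarith
      linarith
    linarith
  have key := tight_core (μ := μ) (r := r) (H := c * wd μ (2 * a)) (ε := ε) (p := p) (A := A) (e := e) (N := n)
    (B := n * Real.exp (C * E' * Real.log (C / (ε / 32)))) (Y := (Cε + 8) * E') (M := M) (J := J) (a := a) (a' := a')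
    (n := n) (x1 := x1) hε hε1 hr12 hx1a hx10 hH hN hnpos he0.le ?_ (by linarith) haa hJn ?_ (by positivity) ?_ ?_ hJ.le
    ?_ ?_ ?_
  · have e1 : ∀ η : Env, cf μ (c' * wd μ n) η 0 n = ZR μ 0 (Rg r) η 0 n := by
      intro η
      rw [← hr, ← St_eq]
      rfl
    simp only [e1]
    exact key
  · intro y hy
    rw [hA]
    exact cheap h t9 (by linarith) hvm hy he0
  · have h1 := markov (μ := μ) (f := fun η => max (V μ 0 η 0 (2 * a)) 0) (fun η => le_max_right _ _)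
      (((Sub_V (μ := μ) (s := 0) 0 (2 * a)).max (Sub.const 0)).integrable hμ) (a := A) hA0
      ((Vp_le hμ (2 * a)).trans (le_mul_of_one_le_left (zero_le_one.trans hEm1) hC)) (E := {η | A < V μ 0 η 0 (2 * a)})
      (fun η hη => by
        have h2 : A < V μ 0 η 0 (2 * a) := hη
        exact h2.le.trans (le_max_left _ _))
    have h3 : C * EE μ (2 * a) / A = e := by
      rw [hA]
      field_simp
    rw [h3] at h1
    exact h1
  · have h1 := boxS h (a' := a') t4 (m := 2 * a) (by linarith) hN hrblock (ε := ε / 32) (by linarith)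
    rw [← hE'] at h1
    exact h1
  · have h1 := hl (2 * a') t2
    rw [← hE'] at h1
    exact h1
  · have h1 : 3 * ((1 - ε / 64) ^ M + e) + 2 * e ≤ 8 * e := by linarith
    have h2 : (J : ℝ) * (3 * ((1 - ε / 64) ^ M + e) + 2 * e) ≤ J * (8 * e) :=
      mul_le_mul_of_nonneg_left h1 (Nat.cast_nonneg _)
    have h3 : (J : ℝ) * (8 * e) ≤ ((J : ℝ) + 1) * (8 * e) := mul_le_mul_of_nonneg_right (by linarith) (by linarith)
    have h4 : ((J : ℝ) + 1) * (8 * e) = ε / 16 := by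
      rw [he]
      field_simp
      norm_num
    linarith
  · have h1 : (0 : ℝ) ≤ J := Nat.cast_nonneg _
    rw [he]
    exact div_le_div_of_nonneg_left hε.le (by norm_num) (by linarith)
  · exact nums hε hnpos hCε hEc h4A hlogn hE'1

end Pool.Agent.W_7d29a1_59T
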