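import Pool.Agent.W_7d29a1_59T.Tight
import Pool.Agent.W_7d29a1_SR.FinS

/-!
MP_7d29a1_pr, THEOREM (T) (proofs row 630) for the polymer of the problem: the width `w n` is the one of `J` and `σ n`.
-/

namespace Pool.Agent.W_7d29a1_59T

open MeasureTheory ProbabilityTheory Filter Topology Pool.Agent.W_7d29a1_F
open Pool.Agent.W_7d29a1_h4g Pool.Agent.W_7d29a1_G Pool.Agent.W_7d29a1_L Pool.Agent.W_7d29a1_SR

variable {Ω : Type*} [MeasurableSpace Ω] {P : Measure Ω} [IsProbabilityMeasure P] {ω : ℕ × ℤ → Ω → ℝ} {β : ℝ}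
  {μ : Measure ℝ} [IsProbabilityMeasure μ] {c C : ℝ} {n₀ : ℕ}

/-- The averaged probability of the ball of radius `c' w_n` is at most `ε`. -/
theorem tightS_P (h : In μ c C n₀) (hmeas : ∀ p, Measurable (ω p))
    (hmp : MeasurePreserving (fun x => toF β fun p => ω p x) P (law μ)) {ε : ℝ} (hε : 0 < ε) :
    ∃ c' : ℝ, 0 < c' ∧ ∃ n₁ : ℕ, ∀ n, n₁ ≤ n →
      ∫ x, polP β (fun p => ω p x) n (ball n (c' * wth P β ω (fun v => J μ (v / 2)) n)) ∂P ≤ ε := by
  obtain ⟨c', hc', n₁, hs⟩ := tight h hε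
  obtain ⟨a₁, A₁, b, B, -, -, hb, hB, n₂, hn₂, hsc⟩ := scales (P := P) (β := β) (ω := ω) h hmp
  refine ⟨2 * c' / B, by positivity, max n₁ n₂, fun n hn => ?_⟩
  obtain ⟨-, -, hw1, hw2, hwd⟩ := hsc n ((le_max_right _ _).trans hn)
  have h1 := hs n ((le_max_left _ _).trans hn)
  rw [← ball_P (P := P) (β := β) hmp n (by positivity)] at h1
  refine le_trans (integral_mono (polP_int hmeas n _) (polP_int hmeas n _) fun x => polP_mono _ _ _ (ball_mono n ?_)) h1
  have h2 := mul_le_mul_of_nonneg_left hw2 (show 0 ≤ 2 * c' / B by positivity)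
  refine h2.trans (le_of_eq ?_)
  field_simp

end Pool.Agent.W_7d29a1_59T
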